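import Pool.Agent.helper30.QP.SpecK

/-!
Row qs:NVH of MP_ebc808_nt: the function `HU` does not vanish.
-/

set_option autoImplicit false

open Polynomial Pool.Agent.helper7.IG

noncomputable section

namespace Pool.Agent.QP

open Classical in
theorem NVH_split (l B : ℕ) (F : LL) (u : Vx) (hu : u ∈ AN l B) :
    HU l B F u + sig u.1 u.2 F = sig B 1 F + ∑ u' ∈ AN l B, sig u'.1 u'.2 F := by
  unfold HU
  rw [← Finset.sum_erase_add _ _ hu, add_assoc]

theorem NVH_odd {l B : ℕ} (hl : l.Prime) (hl2 : l ≠ 2) (hB : Odd B) {u : Vx} (hu : Nb l (B, 1) u) : Odd u.1 := by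
  rcases hu with ⟨h1, _⟩ | ⟨h1, _⟩
  · rw [h1]
    exact (hl.odd_of_ne_two hl2).mul hB
  · have h2 : B = l * u.1 := h1
    rw [h2] at hB
    exact (Nat.odd_mul.mp hB).2

theorem NVH (hHEX : HEX_stmt) (hHP2 : HP2_stmt) (hANF : ANF_stmt) (hPMM : PMM_stmt) (hDSC : DSC_stmt) (hFR : FR_stmt)
    (hDI : DI_stmt) (hNB : NB_stmt) (hME : ME_stmt) : NVH_stmt := by
  classical
  intro F N l hF hN hsq hl hl2 hl3 hcop hnc
  set ψ := PN N F with hψdef
  have hψM : ψ ∈ MM := hPMM N F hN hsq hF.1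
  have hlo : Odd l := hl.odd_of_ne_two hl2
  obtain ⟨B1, hB1, hBB⟩ := hHP2 F N l hF hN hsq hl hl2 hl3 hcop
  refine ⟨3 * N ^ 3 * l * B1, (((by decide : Odd 3).mul hN.pow).mul hlo).mul hB1, fun B hBo hBd h0 => ?_⟩
  obtain ⟨Φ⟩ := hFR
  have hB0 : B ≠ 0 := by rintro rfl; exact absurd hBo (by decide)
  have hB1d : B1 ∣ B := (Dvd.intro_left _ rfl).trans hBd
  have hlB : l ∣ B := ((Dvd.intro_left (3 * N ^ 3) rfl).mul_right B1).trans hBd
  have hN3B : 3 * N ^ 3 ∣ B := ((Dvd.intro l rfl).mul_right B1).trans hBd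
  obtain ⟨h, hfix, hh⟩ := hHEX Φ B l hBo hl hl2 hlB
  have hFx : FxN Φ h B N := by
    intro M η hM hη
    refine hfix M N η ?_ hcop ?_ hη
    · have h3l : Nat.Coprime 3 l := (Nat.coprime_primes Nat.prime_three hl).mpr (Ne.symm hl3)
      exact Nat.Coprime.coprime_dvd_left hM (h3l.mul_left hcop)
    · refine dvd_trans ?_ hN3B
      have : 3 * N ^ 3 = 3 * N * N ^ 2 := by ring
      rw [this]
      exact mul_dvd_mul hM (dvd_refl _)
  obtain ⟨hself, hnb⟩ := hBB Φ h B hBo hB1d hFx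
  have hBV : h (Φ.D (B, 1)) = Φ.D (B, 1) := by
    have := hFx 1 1 (one_dvd _) (one_pow _)
    rw [mul_one] at this
    exact this
  obtain ⟨hAN, _⟩ := hANF l B hl hB0
  have nb1 : Nb l (B, 1) (l * B, 1) := Or.inl ⟨rfl, (one_pow l).symm⟩
  have hBl : B = l * (B / l) := (Nat.mul_div_cancel' hlB).symm
  have nb2 : Nb l (B, 1) (B / l, 1) := Or.inr ⟨hBl, one_pow l⟩
  have m1 : ((l * B, 1) : Vx) ∈ AN l B := (hAN _).mpr nb1
  have m2 : ((B / l, 1) : Vx) ∈ AN l B := (hAN _).mpr nb2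
  have hodd : ∀ u ∈ AN l B, Odd u.1 := fun u hu => NVH_odd hl hl2 hBo ((hAN u).mp hu)
  -- the permutation of the neighbours
  have hex : ∀ u : Vx, ∃ u' : Vx, u ∈ AN l B → (u' ∈ AN l B ∧ h (Φ.D u) = Φ.D u') := by
    intro u
    by_cases hu : u ∈ AN l B
    · obtain ⟨u', hu', hu2⟩ := hNB Φ h (B, 1) (B, 1) l hl hl2 hBo hBo hlB hlB hBV u ((hAN u).mp hu)
      exact ⟨u', fun _ => ⟨(hAN u').mpr hu', hu2⟩⟩
    · exact ⟨u, fun h => absurd h hu⟩
  choose f hf using hex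
  have hfinj : Set.InjOn f (AN l B : Set Vx) := by
    intro u hu v hv huv
    have h1 := (hf u hu).2
    have h2 := (hf v hv).2
    rw [huv, ← h2] at h1
    exact hDI Φ u v (hodd u hu) (hodd v hv) (h.injective h1)
  have hf1 : f (l * B, 1) = (B / l, 1) := by
    have h1 := (hf _ m1).2
    rw [hh] at h1
    exact (hDI Φ _ _ (hodd _ m2) (hodd _ (hf _ m1).1) h1).symm
  have himg : (AN l B).image f = AN l B := by
    apply Finset.eq_of_subset_of_card_le
    · intro u hu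
      obtain ⟨v, hv, rfl⟩ := Finset.mem_image.mp hu
      exact (hf v hv).1
    · rw [Finset.card_image_of_injOn hfinj]
  have himg2 : ((AN l B).erase (l * B, 1)).image f = (AN l B).erase (B / l, 1) := by
    ext u
    simp only [Finset.mem_image, Finset.mem_erase]
    constructor
    · rintro ⟨v, ⟨hv1, hv2⟩, rfl⟩
      refine ⟨?_, (hf v hv2).1⟩
      intro hc
      rw [← hf1] at hc
      exact hv1 (hfinj hv2 m1 hc)
    · rintro ⟨hu1, hu2⟩
      rw [← himg] at hu2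
      obtain ⟨v, hv, rfl⟩ := Finset.mem_image.mp hu2
      refine ⟨v, ⟨?_, hv⟩, rfl⟩
      rintro rfl
      exact hu1 hf1
  have hmemS : ∀ u ∈ AN l B, sig u.1 u.2 ψ ∈ MM := fun u hu => hME _ _ _ (hodd u hu) hψM
  have hmemB : sig B 1 ψ ∈ MM := hME _ _ _ hBo hψM
  -- apply `h`
  have hkey : Φ.cl (HU l B ψ (B / l, 1)) = h (Φ.cl (HU l B ψ (l * B, 1))) := by
    unfold HU
    rw [Φ.cl_add _ hmemB _ (sum_mem fun u hu => hmemS u (Finset.mem_of_mem_erase hu)),
      Φ.cl_add _ hmemB _ (sum_mem fun u hu => hmemS u (Finset.mem_of_mem_erase hu)),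
      Frame.cl_sum Φ _ _ (fun u hu => hmemS u (Finset.mem_of_mem_erase hu)),
      Frame.cl_sum Φ _ _ (fun u hu => hmemS u (Finset.mem_of_mem_erase hu)), map_add, map_sum, hself, ← himg2]
    rw [Finset.sum_image (fun u hu v hv huv => hfinj (Finset.mem_of_mem_erase hu) (Finset.mem_of_mem_erase hv) huv)]
    congr 1
    refine Finset.sum_congr rfl fun u hu => ?_
    have hu' := Finset.mem_of_mem_erase hu
    exact (hnb u (f u) ((hAN u).mp hu') ((hAN _).mp (hf u hu').1) (hf u hu').2).symm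
  have hcl0 : Φ.cl 0 = 0 := Frame.cl_zero Φ
  rw [h0, hcl0, map_zero] at hkey
  have hmemHU : HU l B ψ (B / l, 1) ∈ MM := by
    unfold HU
    exact add_mem hmemB (sum_mem fun u hu => hmemS u (Finset.mem_of_mem_erase hu))
  have hz : HU l B ψ (B / l, 1) = 0 := Φ.cl_inj _ hmemHU hkey
  have e1 := NVH_split l B ψ (l * B, 1) m1
  have e2 := NVH_split l B ψ (B / l, 1) m2
  rw [h0, zero_add] at e1
  rw [hz, zero_add] at e2
  have e3 : sig (l * B) 1 ψ = sig (B / l) 1 ψ := e1.trans e2.symm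
  have hBl0 : B / l ≠ 0 := by
    intro hc
    rw [hc, mul_zero] at hBl
    exact hB0 hBl
  obtain ⟨c, hc⟩ := hDSC (B / l) l ψ hBl0 hl.two_le (by
    rw [mul_assoc, ← hBl]
    exact e3)
  exact hnc c hc

end Pool.Agent.QP
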